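import Pool.Agent.Helper26K1.AP.Cls

/-!
# Polynomial multiple averages for nilpotent groups of affine maps with commuting linear parts

`X` is an arbitrary compact Hausdorff abelian group (written multiplicatively) with its Haar
probability measure.
-/

set_option autoImplicit false

open Filter Topology MeasureTheory
open scoped ENNReal

namespace Pool.Agent.Results.MP_4d8f14_an.AffinePolynomials

/-- `f` can be approximated by continuous functions `u` with an error which has a continuous
majorant `K` of small integral. Continuous functions have this property, and so do the bounded almost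
everywhere continuous functions if `X` is metrizable. -/
def RiemannIntegrable {X : Type*} [TopologicalSpace X] [MeasurableSpace X] (μ : Measure X)
    (f : X → ℂ) : Prop :=
  ∀ ε : ℝ, 0 < ε → ∃ (u : X → ℂ) (K : X → ℝ), Continuous u ∧ Continuous K ∧
    (∀ x, ‖f x - u x‖ ≤ K x) ∧ ∫ x, K x ∂μ ≤ ε

/-- The averages of every bounded measurable function along `g` converge almost everywhere. -/
def SingleAveragesConverge {X : Type*} [MeasurableSpace X] (μ : Measure X) (g : ℤ → X → X) : Prop :=
  ∀ H : X → ℝ, Measurable H → (∃ C : ℝ, ∀ x, |H x| ≤ C) →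
    ∀ᵐ x ∂μ, ∃ L : ℝ, Tendsto (fun N : ℕ => ((2 * N + 1 : ℕ) : ℝ)⁻¹ *
      ∑ n ∈ Finset.Icc (-(N : ℤ)) (N : ℤ), H (g n x)) atTop (𝓝 L)

/-- Let `T_1, …, T_d` be affine bijections of the compact abelian group `X` whose linear parts
commute (`T_i T_k` and `T_k T_i` differ by a translation) and which generate a nilpotent group `G`.
Let `P_ij` be arbitrary integer polynomials, `g_j(n) = T_1^(P_1j(n)) ⋯ T_d^(P_dj(n))`. Let each `f_j`
be Riemann integrable, or in `L^∞(X)` with `g_j(n) = V^n W` for some `V, W ∈ G`, or in `L^∞(X)` with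
convergent single averages along `g_j`. Then
`(1/(2N+1)) ∑_{|n| ≤ N} f_1 (g_1(n) x) ⋯ f_m (g_m(n) x)` converges for almost every `x`. -/
theorem result {X : Type*} [CommGroup X] [TopologicalSpace X] [IsTopologicalGroup X]
    [CompactSpace X] [T2Space X] [MeasurableSpace X] [BorelSpace X] (μ : Measure X)
    [μ.IsHaarMeasure] [IsProbabilityMeasure μ] (d m : ℕ) (T : Fin d → Equiv.Perm X)
    (hT : ∀ i, ∃ (α : X →ₜ* X) (c : X), ∀ x, T i x = α x * c)
    (hlin : ∀ i k, ∃ c : X, ∀ x, T i (T k x) = T k (T i x) * c)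
    (hnil : Group.IsNilpotent (Subgroup.closure (Set.range T)))
    (P : Fin d → Fin m → Polynomial ℤ) (f : Fin m → X → ℂ)
    (hf : ∀ j, RiemannIntegrable μ (f j) ∨ (MemLp (f j) ∞ μ ∧
      ((∃ V ∈ Subgroup.closure (Set.range T), ∃ W ∈ Subgroup.closure (Set.range T), ∀ n : ℤ,
        (List.ofFn fun i : Fin d => T i ^ (P i j).eval n).prod = V ^ n * W) ∨
      SingleAveragesConverge μ fun n =>
        (List.ofFn fun i : Fin d => T i ^ (P i j).eval n).prod))) :
    ∀ᵐ x ∂μ, ∃ L : ℂ, Tendsto (fun N : ℕ => ((2 * N + 1 : ℕ) : ℂ)⁻¹ *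
      ∑ n ∈ Finset.Icc (-(N : ℤ)) (N : ℤ),
        ∏ j : Fin m, f j ((List.ofFn fun i : Fin d => T i ^ (P i j).eval n).prod x))
      atTop (𝓝 L) := by
  have h : Pool.Agent.Helper26K1.AP.NilAff T := ⟨hT, hlin, hnil⟩
  have haff : ∀ V ∈ Subgroup.closure (Set.range T), Pool.Agent.TH784.AA.IsAff (V : X → X) := by
    intro V hV
    have h1 : Subgroup.closure (Set.range T) ≤ Pool.Agent.Helper26K1.AP.AffG X := by
      rw [Subgroup.closure_le]
      rintro _ ⟨i, rfl⟩
      exact hT i
    exact h1 hV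
  refine Pool.Agent.Helper26K1.AP.main_top h P fun j => ?_
  rcases hf j with h1 | ⟨h1, ⟨V, hV, W, hW, h2⟩ | h2⟩
  · exact Or.inl h1
  · refine Or.inr ⟨h1, ?_⟩
    have e : Pool.Agent.Helper26K1.AP.gj T P j = fun n => ((V ^ n * W : Equiv.Perm X) : X → X) := by
      funext n
      rw [← h2]
      rfl
    rw [e]
    exact Pool.Agent.Helper26K1.AP.single_linear (Pool.Agent.TH784.AA.IsAff.mp (haff V hV))
      (Pool.Agent.TH784.AA.IsAff.mp (haff V⁻¹ (Subgroup.inv_mem _ hV)))
      (Pool.Agent.TH784.AA.IsAff.mp (haff W hW))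
  · exact Or.inr ⟨h1, h2⟩

end Pool.Agent.Results.MP_4d8f14_an.AffinePolynomials
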