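import Pool.Agent.Helper77.KS.Main

/-!
# Sequences over a Kolmogorov extension: the base is characteristic almost everywhere

A group `G` acts by measure preserving bijections `Φ g` of a probability space `(X, μ)` and
`ℓ : G → ℝ` is a homomorphism. `𝒴 ⊆ 𝒜` are sub-`σ`-algebras, `𝒴` is invariant, and

* `(Φ g)⁻¹ 𝒜 ⊆ 𝒜` whenever `ℓ g ≤ 0`,
* the `(Φ g)⁻¹ 𝒜`, `g ∈ G`, generate all measurable sets modulo `μ`,
* the intersection of the `(Φ g)⁻¹ 𝒜`, `g ∈ G`, is contained in `𝒴` modulo `μ`,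

that is, the action is a Kolmogorov (`K`-) extension of its factor `𝒴` (for `𝒴` trivial: a
`K`-action). Nothing is assumed about the factor `𝒴`, and `G` is an arbitrary group. In the setting
of the problem `G` is the nilpotent group generated by `T_1, …, T_d`, and
`g j n = T_1^(P_1j(n)) ⋯ T_d^(P_dj(n))`, so that `ℓ (g j n) = Q_j(n)` for the real polynomial
`Q_j = P_1j ℓ(T_1) + ⋯ + P_dj ℓ(T_d)`.
-/

set_option autoImplicit false

open Filter Topology MeasureTheory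
open scoped ENNReal

namespace Pool.Agent.Results.MP_4d8f14_an.KolmogorovSequences

open Pool.Agent.Helper77.KS (SingleAveragesConverge FiniteMemory)

/-- Let `X` be a Kolmogorov extension of its factor `𝒴` with respect to the homomorphism
`ℓ : G → ℝ`, and let `g_1, …, g_m : ℤ → G` be sequences. Assume that

* either `ℓ (g_j(n)) = Q_j(n)` for real polynomials `Q_j` such that no `Q_j` and no `Q_i - Q_j`,
  `i ≠ j`, is constant,
* or, for all `R`, the pairs `(n, n')` with `|ℓ (g_j(n)) - ℓ (g_j(n'))| < R` are so sparse that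
  the sum of `(1 + max (|n|, |n'|))⁻²` over them is finite, and the `n` with
  `|ℓ (g_i(n)) - ℓ (g_j(n))| < R` have density zero for `i ≠ j`.

For each `j` assume that `g_j(n) = b^n` for some `b`, or that the averages of single bounded
functions along `g_j` converge almost everywhere, or that `f_j` has finite memory. Then for
`f_1, …, f_m ∈ L^∞(X)` and almost every `x` the averages over `|n| ≤ N` of `∏_j f_j (g_j(n) x)` and
of `∏_j E(f_j | 𝒴) (g_j(n) x)` have difference tending to zero. -/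
theorem result (m : ℕ) {X G : Type} [Group G] (𝒜 𝒴 : MeasurableSpace X) [mX : MeasurableSpace X]
    (μ : Measure X) [IsProbabilityMeasure μ] (Φ : G →* Equiv.Perm X)
    (hΦ : ∀ g, MeasurePreserving (Φ g) μ μ)
    (ℓ : G → ℝ) (hℓ : ∀ g h, ℓ (g * h) = ℓ g + ℓ h)
    (h𝒜 : 𝒜 ≤ mX) (h𝒴 : 𝒴 ≤ 𝒜) (hinv : ∀ g, Measurable[𝒴, 𝒴] (Φ g : X → X))
    (hmono : ∀ g, ℓ g ≤ 0 → 𝒜.comap (Φ g : X → X) ≤ 𝒜)
    (hgen : ∀ B, MeasurableSet[mX] B →
      ∃ B', MeasurableSet[⨆ g, 𝒜.comap (Φ g : X → X)] B' ∧ B =ᵐ[μ] B')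
    (htail : ∀ B, (∀ g, MeasurableSet[𝒜.comap (Φ g : X → X)] B) →
      ∃ B', MeasurableSet[𝒴] B' ∧ B =ᵐ[μ] B')
    (g : Fin m → ℤ → G)
    (hg : (∃ Q : Fin m → Polynomial ℝ, (∀ j n, ℓ (g j n) = (Q j).eval (n : ℝ)) ∧
        (∀ j, 0 < (Q j).natDegree) ∧ ∀ i j, i ≠ j → 0 < (Q i - Q j).natDegree) ∨
      (∀ R : ℝ, (∀ j, Summable fun p : ℤ × ℤ =>
          (if |ℓ (g j p.1) - ℓ (g j p.2)| < R then (1 : ℝ) else 0) /
            (1 + max |(p.1 : ℝ)| |(p.2 : ℝ)|) ^ 2) ∧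
        ∀ i j, i ≠ j → Tendsto (fun N : ℕ => ((2 * N + 1 : ℕ) : ℝ)⁻¹ *
          ∑ n ∈ Finset.Icc (-(N : ℤ)) (N : ℤ),
            (if |ℓ (g i n) - ℓ (g j n)| < R then (1 : ℝ) else 0)) atTop (𝓝 0)))
    (f : Fin m → X → ℂ) (hf : ∀ j, MemLp (f j) ∞ μ)
    (hsingle : ∀ j, (∃ b : G, ∀ n, g j n = b ^ n) ∨
      SingleAveragesConverge μ (fun n => (Φ (g j n) : X → X)) ∨ FiniteMemory μ 𝒜 𝒴 Φ (f j)) :
    ∀ᵐ x ∂μ, Tendsto (fun N : ℕ => ((2 * N + 1 : ℕ) : ℂ)⁻¹ *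
      ∑ n ∈ Finset.Icc (-(N : ℤ)) (N : ℤ), (∏ j, f j (Φ (g j n) x) -
        ∏ j, (μ[f j | 𝒴]) (Φ (g j n) x))) atTop (𝓝 0) := by
  classical
  have hK : Pool.Agent.TH784.KE.KExt μ 𝒜 𝒴 Φ ℓ := ⟨hΦ, ⟨hℓ, h𝒜, hmono⟩, ⟨h𝒴, hinv⟩, hgen, htail⟩
  refine Pool.Agent.Helper77.KS.two_sided hK g ?_ ?_ hf hsingle
  · intro j R
    rcases hg with ⟨Q, hQ, hQ0, -⟩ | h
    · refine (Pool.Agent.Helper77.KS.summable_close (hQ0 j) R).congr fun p => ?_
      unfold Pool.Agent.Helper77.KS.qc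
      rw [hQ, hQ]
    · refine ((h R).1 j).congr fun p => ?_
      unfold Pool.Agent.Helper77.KS.qc
      congr 1
  · intro i j hij R
    rcases hg with ⟨Q, hQ, -, hQ1⟩ | h
    · refine Pool.Agent.Helper77.KS.avr_finite ?_
      refine (Pool.Agent.Helper77.KS.finite_close (hQ1 i j hij) R 0).subset fun n hn => ?_
      have h1 : |ℓ (g i n) - ℓ (g j n)| < R := hn
      rw [hQ, hQ] at h1
      show |(Q i - Q j).eval (n : ℝ) - 0| < R
      rw [Polynomial.eval_sub, sub_zero]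
      exact h1
    · refine ((h R).2 i j hij).congr fun N => ?_
      rw [Pool.Agent.TH739.PA.avr, Pool.Agent.TH739.PA.Icc_card]

end Pool.Agent.Results.MP_4d8f14_an.KolmogorovSequences
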