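import Pool.Agent.Helper77.MX.Main
import Pool.Agent.Helper77.MX.Pairs

/-!
# Averages along polynomial sequences for actions which mix with a rate relative to a factor

A group `G` acts by measure preserving bijections `Φ g` of a probability space `(X, μ)`, and `𝒴` is
an invariant sub-`σ`-algebra. The action is assumed to be mixing of the orders up to `2 m` relative
to `𝒴`, with a rate `ρ`, for the functions in a class `𝒟`. Nothing is assumed about the factor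
`𝒴`, and `G` is an arbitrary group. For `𝒴` trivial this is quantitative multiple mixing, known for
example for the actions of semisimple groups on their homogeneous spaces, with `𝒟` the smooth
functions of integral zero and `ρ (g) = ‖g‖^(-δ)`; the unipotent (so nilpotent) groups act in this
way, and `T_1^(P_1j(n)) ⋯ T_d^(P_dj(n))` has polynomial entries.
-/

set_option autoImplicit false

open Filter Topology MeasureTheory
open scoped ENNReal

namespace Pool.Agent.Results.MP_4d8f14_an.MixingExtensions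

open Pool.Agent.Helper77.KS (SingleAveragesConverge)
open Pool.Agent.Helper77.MX (Sums)

/-- Let `G` act by measure preserving bijections of `(X, μ)`, let `𝒴` be an invariant
sub-`σ`-algebra, `𝒟` a set of bounded measurable real functions and `ρ : G → [0, ∞)`, such that for
`1 ≤ k ≤ 2 m` and `u_1, …, u_k ∈ 𝒟` there is `C` with
`|∫ W ∏_i u_i (h_i x) dμ| ≤ C ∑_{i ≠ j} ρ (h_i h_j⁻¹)` for all `h_i ∈ G` and all `𝒴`-measurable `W`
with `|W| ≤ 1`. Let `g_1, …, g_m : ℤ → G` be sequences. Assume that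

* either `ρ (g_i(n) g_j(n')⁻¹) ≤ (1 + |R_ij(n, n')|)^(-δ)` with `δ > 0` and real polynomials `R_ij`
  such that no `R_ij(n, n')` and no `R_ij(n, n)`, `i ≠ j`, is constant,
* or `∑_{n, n'} ρ (g_i(n) g_j(n')⁻¹) (1 + max (|n|, |n'|))⁻² < ∞` for all `i, j` and
  `∑_n ρ (g_i(n) g_j(n)⁻¹) (1 + |n|)⁻¹ < ∞` for all `i ≠ j`.

For each `j` assume that `f_j ∈ L^∞` is a limit in `L^1` of functions in `Sums 𝒴 𝒟`, and that
`g_j(n) = b^n` for some `b` or the averages of single bounded functions along `g_j` converge almost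
everywhere; or that `f_j ∈ L^∞` is a uniform limit almost everywhere of functions in `Sums 𝒴 𝒟`. Then
for almost every `x` the averages over `|n| ≤ N` of `∏_j f_j (g_j(n) x)` and of
`∏_j E(f_j | 𝒴) (g_j(n) x)` have difference tending to zero. -/
theorem result (m : ℕ) {X G : Type} [Group G] (𝒴 : MeasurableSpace X) [mX : MeasurableSpace X]
    (μ : Measure X) [IsProbabilityMeasure μ] (Φ : G →* Equiv.Perm X)
    (hΦ : ∀ g, MeasurePreserving (Φ g) μ μ) (h𝒴 : 𝒴 ≤ mX)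
    (hinv : ∀ g, Measurable[𝒴, 𝒴] (Φ g : X → X))
    (𝒟 : Set (X → ℝ)) (h𝒟 : ∀ u ∈ 𝒟, Measurable[mX] u ∧ ∃ C : ℝ, ∀ x, |u x| ≤ C)
    (ρ : G → ℝ) (hρ : ∀ g, 0 ≤ ρ g)
    (hmix : ∀ k : ℕ, 1 ≤ k → k ≤ 2 * m → ∀ u : Fin k → X → ℝ, (∀ i, u i ∈ 𝒟) → ∃ C : ℝ,
      ∀ (h : Fin k → G) (W : X → ℝ), Measurable[𝒴] W → (∀ x, |W x| ≤ 1) →
        |∫ x, W x * ∏ i, u i (Φ (h i) x) ∂μ| ≤
          C * ∑ i, ∑ j ∈ Finset.univ.erase i, ρ (h i * (h j)⁻¹))
    (g : Fin m → ℤ → G)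
    (hg : (∃ (R : Fin m → Fin m → Polynomial (Polynomial ℝ)) (δ : ℝ), 0 < δ ∧
        (∀ i j, ∀ n n' : ℤ, ρ (g i n * (g j n')⁻¹) ≤
          (1 + |(R i j).evalEval (n : ℝ) (n' : ℝ)|) ^ (-δ)) ∧
        (∀ i j, ¬ ∃ c : ℝ, ∀ n n' : ℤ, (R i j).evalEval (n : ℝ) (n' : ℝ) = c) ∧
        ∀ i j, i ≠ j → ¬ ∃ c : ℝ, ∀ n : ℤ, (R i j).evalEval (n : ℝ) (n : ℝ) = c) ∨
      ((∀ i j, Summable fun p : ℤ × ℤ => ρ (g i p.1 * (g j p.2)⁻¹) /
          (1 + max |(p.1 : ℝ)| |(p.2 : ℝ)|) ^ 2) ∧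
        ∀ i j, i ≠ j → Summable fun n : ℤ => ρ (g i n * (g j n)⁻¹) / (1 + |(n : ℝ)|)))
    (f : Fin m → X → ℂ) (hf : ∀ j, MemLp (f j) ∞ μ)
    (happ : ∀ j, (((∃ b : G, ∀ n, g j n = b ^ n) ∨
        SingleAveragesConverge μ (fun n => (Φ (g j n) : X → X))) ∧
        ∀ ε : ℝ, 0 < ε → ∃ s ∈ Sums 𝒴 𝒟, ∫ x, ‖f j x - s x‖ ∂μ ≤ ε) ∨
      ∀ ε : ℝ, 0 < ε → ∃ s ∈ Sums 𝒴 𝒟, ∀ᵐ x ∂μ, ‖f j x - s x‖ ≤ ε) :
    ∀ᵐ x ∂μ, Tendsto (fun N : ℕ => ((2 * N + 1 : ℕ) : ℂ)⁻¹ *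
      ∑ n ∈ Finset.Icc (-(N : ℤ)) (N : ℤ), (∏ j, f j (Φ (g j n) x) -
        ∏ j, (μ[f j | 𝒴]) (Φ (g j n) x))) atTop (𝓝 0) := by
  have hM : Pool.Agent.Helper77.MX.Mix μ 𝒴 Φ 𝒟 ρ (2 * m) := ⟨h𝒟, hρ, hmix⟩
  refine Pool.Agent.Helper77.MX.two_sided hΦ h𝒴 hinv hM g ?_ ?_ hf happ
  · intro i j
    rcases hg with ⟨R, δ, hδ, hR, hR1, -⟩ | h
    · refine Summable.of_nonneg_of_le (fun p => div_nonneg (hρ _) (by positivity)) (fun p => ?_)
        (Pool.Agent.Helper77.MX.summable_pairs (hR1 i j) hδ)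
      exact div_le_div_of_nonneg_right (hR i j p.1 p.2) (by positivity)
    · exact h.1 i j
  · intro i j hij
    rcases hg with ⟨R, δ, hδ, hR, -, hR2⟩ | h
    · refine Summable.of_nonneg_of_le (fun p => div_nonneg (hρ _) (by positivity)) (fun n => ?_)
        (Pool.Agent.Helper77.MX.summable_line (hR2 i j hij) hδ)
      exact div_le_div_of_nonneg_right (hR i j n n) (by positivity)
    · exact h.2 i j hij

end Pool.Agent.Results.MP_4d8f14_an.MixingExtensions
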