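import Pool.Agent.Helper26K1.AB.Fin

/-!
# Polynomial multiple averages for nilpotent groups of affine maps with noncommuting linear parts

`X` is a compact Hausdorff abelian group (written multiplicatively) with its Haar probability
measure, `X →ₜ* Circle` is its group of characters. For an affine map `V x = α x * c` and a character
`χ`, `χ ∘ V` is the character `χ ∘ α` times a constant; so here
`up to constants` refers to the action of the linear parts on the characters.
-/

set_option autoImplicit false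

open Filter Topology MeasureTheory
open scoped ENNReal

namespace Pool.Agent.Results.MP_4d8f14_an.NoncommutingLinearParts

/-- `f` can be approximated by continuous functions `u` with an error which has a continuous
majorant `K` of small integral. Continuous functions have this property, and so do the bounded almost
everywhere continuous functions if `X` is metrizable. -/
def RiemannIntegrable {X : Type*} [TopologicalSpace X] [MeasurableSpace X] (μ : Measure X)
    (f : X → ℂ) : Prop :=
  ∀ ε : ℝ, 0 < ε → ∃ (u : X → ℂ) (K : X → ℝ), Continuous u ∧ Continuous K ∧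
    (∀ x, ‖f x - u x‖ ≤ K x) ∧ ∫ x, K x ∂μ ≤ ε

/-- The averages of every bounded measurable function along `g` converge almost everywhere. -/
def SingleAveragesConverge {X : Type*} [MeasurableSpace X] (μ : Measure X) (g : ℤ → X → X) : Prop :=
  ∀ H : X → ℝ, Measurable H → (∃ C : ℝ, ∀ x, |H x| ≤ C) →
    ∀ᵐ x ∂μ, ∃ L : ℝ, Tendsto (fun N : ℕ => ((2 * N + 1 : ℕ) : ℝ)⁻¹ *
      ∑ n ∈ Finset.Icc (-(N : ℤ)) (N : ℤ), H (g n x)) atTop (𝓝 L)

/-- The group `N` of characters is invariant under `G` up to constants: for `V ∈ G` and `χ ∈ N`,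
`χ ∘ V` is a constant times an element of `N`. -/
def Invariant {X : Type*} [CommGroup X] [TopologicalSpace X] (G : Subgroup (Equiv.Perm X))
    (N : Subgroup (X →ₜ* Circle)) : Prop :=
  ∀ V ∈ G, ∀ χ ∈ N, ∃ ψ ∈ N, ∃ c : Circle, ∀ x, χ (V x) = c * ψ x

/-- `χ ∘ V = χ` modulo constants and modulo `N`. -/
def FixedMod {X : Type*} [CommGroup X] [TopologicalSpace X] (N : Subgroup (X →ₜ* Circle))
    (V : Equiv.Perm X) (χ : X →ₜ* Circle) : Prop :=
  ∃ ψ ∈ N, ∃ c : Circle, ∀ x, χ (V x) = c * ψ x * χ x

/-- The quotient of the group of characters by `N` embeds in some `ℚ ^ r`, i.e. it is torsion-free of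
finite rank. -/
def FiniteRankMod {X : Type*} [CommGroup X] [TopologicalSpace X] (N : Subgroup (X →ₜ* Circle)) :
    Prop :=
  ∃ (r : ℕ) (φ : Additive (X →ₜ* Circle) →+ (Fin r → ℚ)), ∀ χ, φ (Additive.ofMul χ) = 0 ↔ χ ∈ N

/-- Every `V ∈ G` fixes all characters modulo `N`, or no power `V ^ k`, `k ≥ 1`, fixes modulo `N` a
character which is not in `N`. For `N` trivial and `V` affine the second case says that the linear
part of `V` is ergodic. -/
def TrivialOrErgodicMod {X : Type*} [CommGroup X] [TopologicalSpace X] (G : Subgroup (Equiv.Perm X))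
    (N : Subgroup (X →ₜ* Circle)) : Prop :=
  ∀ V ∈ G, (∀ χ, FixedMod N V χ) ∨ ∀ k : ℕ, 1 ≤ k → ∀ χ, FixedMod N (V ^ k) χ → χ ∈ N

/-- Let `T_1, …, T_d` be affine bijections of the compact abelian group `X` which generate a nilpotent
group `G`; their linear parts need not commute. Assume that the group of characters has finitely many
`G`-invariant subgroups `N_i` with trivial intersection such that, for each `i`, the quotient by `N_i`
is torsion-free of finite rank, or every `V ∈ G` acts on it trivially or without nontrivial periodic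
points. Let `P_ij` be arbitrary integer polynomials, `g_j(n) = T_1^(P_1j(n)) ⋯ T_d^(P_dj(n))`. Let
each `f_j` be Riemann integrable, or in `L^∞(X)` with `g_j(n) = V^n W` for some `V, W ∈ G`, or in
`L^∞(X)` with convergent single averages along `g_j`. Then
`(1/(2N+1)) ∑_{|n| ≤ N} f_1 (g_1(n) x) ⋯ f_m (g_m(n) x)` converges for almost every `x`. -/
theorem result {X : Type*} [CommGroup X] [TopologicalSpace X] [IsTopologicalGroup X]
    [CompactSpace X] [T2Space X] [MeasurableSpace X] [BorelSpace X] (μ : Measure X)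
    [μ.IsHaarMeasure] [IsProbabilityMeasure μ] (d m : ℕ) (T : Fin d → Equiv.Perm X)
    (hT : ∀ i, ∃ (α : X →ₜ* X) (c : X), ∀ x, T i x = α x * c)
    (hnil : Group.IsNilpotent (Subgroup.closure (Set.range T)))
    (k : ℕ) (N : Fin k → Subgroup (X →ₜ* Circle)) (hN : ⨅ i, N i = ⊥)
    (hinv : ∀ i, Invariant (Subgroup.closure (Set.range T)) (N i))
    (hquo : ∀ i, FiniteRankMod (N i) ∨
      TrivialOrErgodicMod (Subgroup.closure (Set.range T)) (N i))
    (P : Fin d → Fin m → Polynomial ℤ) (f : Fin m → X → ℂ)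
    (hf : ∀ j, RiemannIntegrable μ (f j) ∨ (MemLp (f j) ∞ μ ∧
      ((∃ V ∈ Subgroup.closure (Set.range T), ∃ W ∈ Subgroup.closure (Set.range T), ∀ n : ℤ,
        (List.ofFn fun i : Fin d => T i ^ (P i j).eval n).prod = V ^ n * W) ∨
      SingleAveragesConverge μ fun n =>
        (List.ofFn fun i : Fin d => T i ^ (P i j).eval n).prod))) :
    ∀ᵐ x ∂μ, ∃ L : ℂ, Tendsto (fun N : ℕ => ((2 * N + 1 : ℕ) : ℂ)⁻¹ *
      ∑ n ∈ Finset.Icc (-(N : ℤ)) (N : ℤ),
        ∏ j : Fin m, f j ((List.ofFn fun i : Fin d => T i ^ (P i j).eval n).prod x))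
      atTop (𝓝 L) := by
  have h : Pool.Agent.Helper26K1.AB.SideAll μ T :=
    Pool.Agent.Helper26K1.AB.side_of_dich hT hnil fun m P χ =>
      Pool.Agent.Helper26K1.AB.dich_X hT hnil N hN hinv hquo P χ
  have haff : ∀ V ∈ Subgroup.closure (Set.range T), Pool.Agent.TH784.AA.IsAff (V : X → X) :=
    fun V hV => Pool.Agent.Helper26K1.AB.hle hT hV
  refine Pool.Agent.Helper26K1.AB.main_top h P fun j => ?_
  rcases hf j with h1 | ⟨h1, ⟨V, hV, W, hW, h2⟩ | h2⟩
  · exact Or.inl h1
  · refine Or.inr ⟨h1, ?_⟩
    have e : Pool.Agent.Helper26K1.AP.gj T P j = fun n => ((V ^ n * W : Equiv.Perm X) : X → X) := by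
      funext n
      rw [← h2]
      rfl
    rw [e]
    exact Pool.Agent.Helper26K1.AP.single_linear (Pool.Agent.TH784.AA.IsAff.mp (haff V hV))
      (Pool.Agent.TH784.AA.IsAff.mp (haff V⁻¹ (Subgroup.inv_mem _ hV)))
      (Pool.Agent.TH784.AA.IsAff.mp (haff W hW))
  · exact Or.inr ⟨h1, h2⟩

end Pool.Agent.Results.MP_4d8f14_an.NoncommutingLinearParts
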